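import Mathlib
import Pool.Graph.R_seed8.Y787.PFour
import Pool.Agent.Helper71.SFE.Rows

/-!
# `p`-adic strong four exponentials: the conjecture for all matrices with one row or one column in a
# space of codimension at most seven

Let `LogForms` be the space, over the field `ℚ̄` of the algebraic numbers, of ALL linear combinations of
`1` and of `p`-adic logarithms of algebraic numbers.  There is a subspace `Λ` of `LogForms` of codimension
at most seven such that the `p`-adic strong four exponentials conjecture is true for all matrices with
entries in `LogForms` which have one row, or one column, with both entries in `Λ` (more generally for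
which a nontrivial combination of the rows, or of the columns, with algebraic coefficients has both
entries in `Λ`); there is no condition on the other row (or column).  Such a space `Λ` can be chosen to
contain any given finite dimensional space with this property.

The proof.  The rows of counterexamples are pairs `r` of elements of `LogForms`; the pairs `r h` with
invertible `2 × 2` matrices `h` with algebraic entries are rows of counterexamples as well.  For every
finite dimensional space `F` the rows of (arbitrary) counterexamples with `r` in `F ^ 2` lie in an
algebraic set of dimension at most ten (`R350.row_dim`, which depends on the hyperplane case of the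
linear subgroup theorem and on the finiteness of the space spanned by the second rows).  Let `G` be a
subspace of `F` without rows of counterexamples.  If the kernels of all linear maps `φ` from `F / G` to
`ℚ̄ ^ c` contained a row of a counterexample, we could take, over the field of germs of sequences of
algebraic numbers along an ultrafilter, a generic `φ` and such a row `r`; after the multiplication with
some `h` four of the coordinates of `r` are generic and independent of `φ`.  As `r` is not zero modulo
`G` the coefficients of `φ` satisfy `c` linear relations over the field generated by the coordinates of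
`r`, hence `c + 4 ≤ 10`.  So for `c = 7` the space `G` is contained in a subspace of `F` without rows
of counterexamples and of codimension at most seven.  An increasing sequence of finite dimensional
spaces `F` whose union is `LogForms` gives an increasing sequence of spaces without rows of
counterexamples; its union has codimension at most seven in `LogForms`.
-/

set_option autoImplicit false

namespace Pool.Agent.Results.MP_dd0d16_nt.FiniteCodimension

open Module

/-- `L` is the Iwasawa logarithm on the algebraic closure of `ℚ_p`. -/
structure IsIwasawaLog (p : ℕ) [Fact p.Prime] (L : PadicAlgCl p → PadicAlgCl p) : Prop where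
  mul : ∀ x y : PadicAlgCl p, x ≠ 0 → y ≠ 0 → L (x * y) = L x + L y
  prime : L ((p : ℕ) : PadicAlgCl p) = 0
  ser : ∀ z : PadicAlgCl p, ‖z‖ < 1 →
    HasSum (fun n : ℕ => (-1 : PadicAlgCl p) ^ n * z ^ (n + 1) / ((n : PadicAlgCl p) + 1))
      (L (1 + z))

/-- The algebraic numbers. -/
noncomputable abbrev Qb (p : ℕ) [Fact p.Prime] : IntermediateField ℚ (PadicAlgCl p) :=
  algebraicClosure ℚ (PadicAlgCl p)

/-- The space of all linear combinations with algebraic coefficients of `1` and of the values of `L`
at nonzero algebraic numbers. -/
noncomputable def LogForms {p : ℕ} [Fact p.Prime] (L : PadicAlgCl p → PadicAlgCl p) :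
    Submodule (Qb p) (PadicAlgCl p) :=
  Submodule.span (Qb p) ({1} ∪ {z | ∃ α : PadicAlgCl p, α ≠ 0 ∧ IsAlgebraic ℚ α ∧ z = L α})

/-- `M` is a counterexample to the `p`-adic strong four exponentials conjecture: its entries are in
`LogForms`, its rows and its columns are linearly independent over the algebraic numbers, and it is
singular. -/
def IsCounterexample {p : ℕ} [Fact p.Prime] (L : PadicAlgCl p → PadicAlgCl p)
    (M : Matrix (Fin 2) (Fin 2) (PadicAlgCl p)) : Prop :=
  (∀ i j, M i j ∈ LogForms L) ∧
    LinearIndependent (Qb p) (fun i : Fin 2 => fun j : Fin 2 => M i j) ∧
    LinearIndependent (Qb p) (fun j : Fin 2 => fun i : Fin 2 => M i j) ∧ M.det = 0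

/-- A nontrivial combination, with algebraic coefficients, of the rows of `M`, or of its columns, has
both entries in `V`. (For instance one row or one column of `M` has both entries in `V`.) -/
def LineIn {p : ℕ} [Fact p.Prime] (V : Submodule (Qb p) (PadicAlgCl p))
    (M : Matrix (Fin 2) (Fin 2) (PadicAlgCl p)) : Prop :=
  ∃ a : Fin 2 → Qb p, a ≠ 0 ∧ ((∀ j, ∑ i, a i • M i j ∈ V) ∨ ∀ i, ∑ j, a j • M i j ∈ V)

/-- The conjecture is true for all matrices with a row or a column in `V` (or a nontrivial
combination of the rows or of the columns in `V`). -/
def Good {p : ℕ} [Fact p.Prime] (L : PadicAlgCl p → PadicAlgCl p)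
    (V : Submodule (Qb p) (PadicAlgCl p)) : Prop :=
  ∀ M : Matrix (Fin 2) (Fin 2) (PadicAlgCl p), LineIn V M → ¬ IsCounterexample L M

/-- **Main result.** For every prime `p` and every space `V` of finite dimension for which the conjecture
is true in the strong sense of `Good` (or of dimension at most one) there is a subspace `Λ` of
`LogForms` with the same property, which contains `V` and has a complement of dimension at most seven. -/
theorem result (p : ℕ) [Fact p.Prime] (L : PadicAlgCl p → PadicAlgCl p) (hL : IsIwasawaLog p L)
    (V : Submodule (Qb p) (PadicAlgCl p)) (hV : V ≤ LogForms L) [Module.Finite (Qb p) V]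
    (hg : Good L V ∨ finrank (Qb p) V ≤ 1) :
    ∃ Λ U : Submodule (Qb p) (PadicAlgCl p), V ≤ Λ ∧ Λ ⊔ U = LogForms L ∧
      Module.Finite (Qb p) U ∧ finrank (Qb p) U ≤ 7 ∧ Good L Λ := by
  have hL' : Pool.Agent.W245.PB.IsIwasawaLog p L := ⟨hL.mul, hL.prime, hL.ser⟩
  have hHyp := Pool.Agent.Y787.hypC_padic hL'
  have hcount : (LogForms L : Set (PadicAlgCl p)).Countable := by
    refine Pool.Agent.Helper71.SFE.countable_span _ ((Set.countable_singleton _).union ?_)
    have h1 : Set.Countable {x : PadicAlgCl p | IsAlgebraic ℚ x} :=
      Algebraic.countable ℚ (PadicAlgCl p)
    refine (h1.image L).mono ?_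
    rintro z ⟨α, -, hα, rfl⟩
    exact ⟨α, hα, rfl⟩
  obtain ⟨Λ, U, h1, h2, h3, h4, h5⟩ := Pool.Agent.Helper71.SFE.rows_codim
    (Lt := Pool.Agent.W254.PA.LtE (Pool.Agent.W254.PA.logs L)) hcount V hV inferInstance (by
      rcases hg with hg | hg
      · exact hg
      · refine (Pool.Agent.Helper71.SFE.free_iff hV).1 ?_
        intro r hr hB
        have hli := Pool.Agent.Helper71.SFE.badRow_indep hB
        have h6 : LinearIndependent (Qb p) (fun i => (⟨r i, hr i⟩ : V)) :=
          LinearIndependent.of_comp V.subtype hli
        have h7 := h6.fintype_card_le_finrank
        rw [Fintype.card_fin] at h7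
        omega)
  exact ⟨Λ, U, h1, h2, h3, h4, h5⟩

end Pool.Agent.Results.MP_dd0d16_nt.FiniteCodimension
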