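import Mathlib
import Pool.Graph.R_seed8.Y787.PFour
import Pool.Agent.Helper71.SFE.GenSub

/-!
# `p`-adic strong four exponentials: matrices of algebraic numbers plus generic logarithms

Let `LogForms` be the space, over the field `ℚ̄` of the algebraic numbers, of all linear combinations of
`1` and of `p`-adic logarithms of algebraic numbers, and let `F` be a subspace of finite dimension `R`
that does not contain `1`. If `n ≤ R - 3` the `p`-adic strong four exponentials conjecture is true for
all matrices with entries in `ℚ̄ + V`, for almost all `n`-dimensional subspaces `V` of `F`: for the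
spaces spanned by `n`-tuples of elements of `F` outside a proper algebraic subset of `F ^ n`; in addition
at most `O (H ^ (nR - c))` of the `(2 H + 1) ^ (nR)` tuples with integral coordinates of absolute value at
most `H` (with respect to a given basis of `F`) are exceptional, where `c = 2 (R - n) - 3`.

The proof. Let `M = B_0 + ∑ x_a B_a` be a counterexample with entries in `ℚ̄ + V`, `V` spanned by the
tuple `x_1, …, x_n`, with matrices `B_0, B_a` over `ℚ̄`, and let `s` of the `B_a` be a basis of the space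
spanned by all `B_a` with `a ≥ 1`, `A_1, …, A_s`. Then `s ≤ 4`, and `M = B_0 + ∑ y_i A_i` with
`y_i = x_i + ∑ c_{ia} x_a` (`a` outside of the chosen set of `s` indices). The tuple `(y_i)` is a zero of
the quadratic polynomial `det (B_0 + ∑ t_i A_i)`, and it lies on no line of zeros with a direction in
`ℚ̄ ^ s`. By the theorem on families of varieties of `Y787.AS` (`fam_coord`, which depends on the
hyperplane case of the linear subgroup theorem) the tuples `(y_i)` are in a set whose dimension is at
most `s (s - 1)` plus the number of the parameters of the quadratic polynomial.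
-/

set_option autoImplicit false

namespace Pool.Agent.Results.MP_dd0d16_nt.GenericWithConstants

open Module

/-- `L` is the Iwasawa logarithm on the algebraic closure of `ℚ_p`. -/
structure IsIwasawaLog (p : ℕ) [Fact p.Prime] (L : PadicAlgCl p → PadicAlgCl p) : Prop where
  mul : ∀ x y : PadicAlgCl p, x ≠ 0 → y ≠ 0 → L (x * y) = L x + L y
  prime : L ((p : ℕ) : PadicAlgCl p) = 0
  ser : ∀ z : PadicAlgCl p, ‖z‖ < 1 →
    HasSum (fun n : ℕ => (-1 : PadicAlgCl p) ^ n * z ^ (n + 1) / ((n : PadicAlgCl p) + 1))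
      (L (1 + z))

/-- The algebraic numbers. -/
noncomputable abbrev Qb (p : ℕ) [Fact p.Prime] : IntermediateField ℚ (PadicAlgCl p) :=
  algebraicClosure ℚ (PadicAlgCl p)

/-- The space of all linear combinations with algebraic coefficients of `1` and of the values of `L`
at nonzero algebraic numbers. -/
noncomputable def LogForms {p : ℕ} [Fact p.Prime] (L : PadicAlgCl p → PadicAlgCl p) :
    Submodule (Qb p) (PadicAlgCl p) :=
  Submodule.span (Qb p) ({1} ∪ {z | ∃ α : PadicAlgCl p, α ≠ 0 ∧ IsAlgebraic ℚ α ∧ z = L α})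

/-- `M` is a counterexample to the `p`-adic strong four exponentials conjecture: its entries are in
`LogForms`, its rows and its columns are linearly independent over the algebraic numbers, and it is
singular. -/
def IsCounterexample {p : ℕ} [Fact p.Prime] (L : PadicAlgCl p → PadicAlgCl p)
    (M : Matrix (Fin 2) (Fin 2) (PadicAlgCl p)) : Prop :=
  (∀ i j, M i j ∈ LogForms L) ∧
    LinearIndependent (Qb p) (fun i : Fin 2 => fun j : Fin 2 => M i j) ∧
    LinearIndependent (Qb p) (fun j : Fin 2 => fun i : Fin 2 => M i j) ∧ M.det = 0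

/-- The conjecture is true for all matrices with entries in `V`. -/
def HoldsOn {p : ℕ} [Fact p.Prime] (L : PadicAlgCl p → PadicAlgCl p)
    (V : Submodule (Qb p) (PadicAlgCl p)) : Prop :=
  ∀ M : Matrix (Fin 2) (Fin 2) (PadicAlgCl p), (∀ i j, M i j ∈ V) → ¬ IsCounterexample L M

/-- The space spanned by the `n` elements `∑ j, x a j • l j`. -/
noncomputable def spanOf {p : ℕ} [Fact p.Prime] {n R : ℕ} (l : Fin R → PadicAlgCl p)
    (x : Fin n → Fin R → Qb p) : Submodule (Qb p) (PadicAlgCl p) :=
  Submodule.span (Qb p) (Set.range fun a => ∑ j, x a j • l j)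

/-- Almost all spaces spanned by `n` elements of the space with the basis `l` have the property `P`:
1. there is a polynomial `Ψ ≠ 0` such that the space spanned by the `n` elements `∑ j, x a j • l j` has
  the property `P` whenever `Ψ(x) ≠ 0`;
2. for at most `κ H ^ (n R - c)` (exponent `0` if `c > n R`) of the integral `x` with coefficients of absolute value at most `H` this
  space does not have the property `P`;
3. there is such a space of dimension `n` with the property `P`. -/
def AlmostAll {p : ℕ} [Fact p.Prime] (n c : ℕ) {R : ℕ} (l : Fin R → PadicAlgCl p)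
    (P : Submodule (Qb p) (PadicAlgCl p) → Prop) : Prop :=
  (∃ Ψ : MvPolynomial (Fin n × Fin R) (Qb p), Ψ ≠ 0 ∧ ∀ x : Fin n → Fin R → Qb p,
      MvPolynomial.eval (fun q => x q.1 q.2) Ψ ≠ 0 → P (spanOf l x)) ∧
    (∃ κ : ℕ, ∀ H : ℕ, 1 ≤ H →
      Set.ncard {X : Fin n → Fin R → ℤ | (∀ a j, |X a j| ≤ H) ∧
        ¬ P (spanOf l fun a j => (X a j : Qb p))} ≤ κ * H ^ (n * R - c)) ∧
    ∃ V : Submodule (Qb p) (PadicAlgCl p), V ≤ Submodule.span (Qb p) (Set.range l) ∧
      finrank (Qb p) V = n ∧ P V

theorem almostAll_of {p : ℕ} [Fact p.Prime] {n c R : ℕ} (l : Fin R → PadicAlgCl p)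
    (hli : LinearIndependent (Qb p) l) (hn : 1 ≤ n) (hnR : n ≤ R) (hc : 1 ≤ c)
    (P : Submodule (Qb p) (PadicAlgCl p) → Prop) (S : Set (Fin n × Fin R → Qb p))
    (hS : ∀ x, x ∈ S ↔
      ¬ P (Submodule.span (Qb p) (Set.range (Pool.Agent.Helper71.SFE.pt l x))))
    (hdim : Pool.Agent.Helper71.SFE.DimS (n * R - c) S) : AlmostAll n c l P := by
  have hnR' : 1 ≤ n * R := Nat.one_le_iff_ne_zero.2 (Nat.mul_ne_zero (by omega) (by omega))
  have hpt : ∀ x : Fin n → Fin R → Qb p,
      Submodule.span (Qb p) (Set.range (Pool.Agent.Helper71.SFE.pt l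
        (fun q : Fin n × Fin R => x q.1 q.2))) = spanOf l x := fun x => rfl
  have hhyp := Pool.Agent.Helper71.SFE.hyp_of_dim (d := n * R - c) (by omega) S hdim
  refine ⟨?_, ?_, ?_⟩
  · obtain ⟨Ψ, hΨ, hΨ0⟩ := hhyp
    refine ⟨Ψ, hΨ, fun x hx => ?_⟩
    by_contra hcon
    apply hx
    apply hΨ0
    rw [hS, hpt]
    exact hcon
  · obtain ⟨κ, hκ⟩ := Pool.Agent.Helper71.SFE.count_of_dim (d := n * R - c) S hdim
    refine ⟨κ, fun H hH => le_trans (le_of_eq ?_) (hκ H hH)⟩
    congr 1
    ext X
    simp only [Set.mem_ofPred_eq, hS]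
    rfl
  · obtain ⟨x, hx, hfr⟩ := Pool.Agent.Helper71.SFE.exists_of_hyp l hli hnR S hhyp
    refine ⟨_, ?_, hfr, ?_⟩
    · rw [Submodule.span_le]
      rintro _ ⟨a, rfl⟩
      exact Submodule.sum_mem _ fun j _ => Submodule.smul_mem _ _ (Submodule.subset_span ⟨j, rfl⟩)
    · rw [hS] at hx
      exact not_not.1 hx

/-- **Main result.** Let `l_1, …, l_R` be linearly independent (over the algebraic numbers) elements of
`LogForms`. If `1` is not in their span and `c ≤ 2 (R - n) - 3`, `n ≤ R - 3`, then the conjecture is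
true for all matrices with entries in `ℚ̄ + V` for almost all `n`-dimensional subspaces `V`. -/
theorem result (p : ℕ) [Fact p.Prime] (L : PadicAlgCl p → PadicAlgCl p) (hL : IsIwasawaLog p L)
    (n R : ℕ) (hn : 1 ≤ n) (l : Fin R → PadicAlgCl p) (hl : ∀ j, l j ∈ LogForms L)
    (hli : LinearIndependent (Qb p) l) (c : ℕ) (hc : 1 ≤ c)
    (h1 : c + 3 ≤ 2 * (R - n)) (h2 : 3 ≤ R - n)
    (h3 : (1 : PadicAlgCl p) ∉ Submodule.span (Qb p) (Set.range l)) :
    AlmostAll n c l (fun V => HoldsOn L (Submodule.span (Qb p) {1} ⊔ V)) := by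
  have hL' : Pool.Agent.W245.PB.IsIwasawaLog p L := ⟨hL.mul, hL.prime, hL.ser⟩
  have hHyp := Pool.Agent.Y787.hypC_padic hL'
  exact almostAll_of l hli hn (by omega) hc _ _ (fun x => Iff.rfl)
      (Pool.Agent.Helper71.SFE.inhom_dim
        (Lt := Pool.Agent.W254.PA.LtE (Pool.Agent.W254.PA.logs L)) l hl
        (linearIndependent_finCons.2 ⟨hli, h3⟩) h1 (by omega))

end Pool.Agent.Results.MP_dd0d16_nt.GenericWithConstants
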